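import Pool.Agent.Helper85.IW.Statements

set_option autoImplicit false
set_option maxSynthPendingDepth 3

open MeasureTheory Complex Filter Topology
open scoped ENNReal NNReal ComplexConjugate

namespace Helper85.IW.M_C1a

instance haarE : (volume : Measure E).IsAddHaarMeasure :=
  inferInstanceAs ((volume : Measure ℂ).prod (volume : Measure ℂ)).IsAddHaarMeasure

instance negE : (volume : Measure E).IsNegInvariant := inferInstance

theorem rho_nonneg (n : ℕ) (y : E) : 0 ≤ rho n y := (bmp n).nonneg_normed y

theorem rho_neg (n : ℕ) (y : E) : rho n (-y) = rho n y := (bmp n).normed_neg y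

theorem rho_cont (n : ℕ) : Continuous (rho n) := (bmp n).continuous_normed

theorem rho_supp (n : ℕ) (y : E) (h : rho n y ≠ 0) : ‖y‖ < 1 := by
  have h1 : y ∈ Function.support ((bmp n).normed (volume : Measure E)) := h
  rw [(bmp n).support_normed_eq, mem_ball_zero_iff] at h1
  have h2 : (bmp n).rOut = 1 / ((n : ℝ) + 1) := rfl
  rw [h2] at h1
  have h3 : 1 / ((n : ℝ) + 1) ≤ 1 := by
    rw [div_le_one (by positivity)]
    linarith [Nat.cast_nonneg (α := ℝ) n]
  linarith

theorem rho_int (n : ℕ) : ∫ y : E, rho n y = 1 := (bmp n).integral_normed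

theorem rho_compact (n : ℕ) : HasCompactSupport (rho n) := (bmp n).hasCompactSupport_normed

theorem rho_integrable (n : ℕ) : Integrable (rho n) (volume : Measure E) :=
  (rho_cont n).integrable_of_hasCompactSupport (rho_compact n)

theorem cont_of_lip {H : E → (E →L[ℝ] ℝ)}
    (hH : ∀ R : ℝ, ∃ K : ℝ≥0, LipschitzOnWith K H (Metric.closedBall 0 R)) : Continuous H := by
  rw [continuous_iff_continuousAt]
  intro z
  obtain ⟨K, hK⟩ := hH (‖z‖ + 1)
  refine hK.continuousOn.continuousAt ?_
  refine Filter.mem_of_superset (Metric.closedBall_mem_nhds z one_pos) ?_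
  intro w hw
  rw [Metric.mem_closedBall, dist_eq_norm] at hw
  rw [mem_closedBall_zero_iff]
  have : ‖w‖ ≤ ‖w - z‖ + ‖z‖ := by
    have := norm_add_le (w - z) z
    rwa [sub_add_cancel] at this
  linarith

theorem integrable_rho_smul {V : Type} [NormedAddCommGroup V] [NormedSpace ℝ V] (n : ℕ)
    {H : E → V} (hH : Continuous H) (z : E) :
    Integrable (fun y => rho n y • H (z - y)) (volume : Measure E) := by
  refine Continuous.integrable_of_hasCompactSupport ?_ ?_
  · exact (rho_cont n).smul (hH.comp (continuous_const.sub continuous_id))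
  · exact (rho_compact n).smul_right

theorem main : StC1a := by
  intro H hH hodd hdiff n
  have hc : Continuous H := cont_of_lip hH
  refine ⟨?_, ?_, ?_, ?_⟩
  · have h1 : mol n H = MeasureTheory.convolution (rho n) H (ContinuousLinearMap.lsmul ℝ ℝ)
        (volume : Measure E) := by
      funext z
      rfl
    rw [h1]
    exact (rho_compact n).contDiff_convolution_left _ (bmp n).contDiff_normed
      hc.locallyIntegrable
  · have h1 : mol n H 0 = - mol n H 0 := by
      have h2 : mol n H 0 = ∫ y : E, rho n (-y) • H (0 - (-y)) := by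
        rw [mol]
        exact (integral_neg_eq_self (fun y : E => rho n y • H (0 - y)) volume).symm
      rw [h2]
      conv_rhs => rw [← integral_neg_eq_self (fun y : E => rho n (-y) • H (0 - (-y))) volume]
      rw [← integral_neg]
      refine integral_congr_ae (Filter.Eventually.of_forall fun y => ?_)
      show rho n (-y) • H (0 - (-y)) = -(rho n (- -y) • H (0 - (- -y)))
      rw [neg_neg, rho_neg, zero_sub, neg_neg, zero_sub, hodd, smul_neg, neg_neg]
    have h2 : (2 : ℝ) • mol n H 0 = 0 := by
      rw [two_smul]
      nth_rewrite 1 [h1]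
      exact neg_add_cancel _
    exact (smul_eq_zero.1 h2).resolve_left two_ne_zero
  · intro z
    obtain ⟨K, hK⟩ := hH (‖z‖ + 2)
    have hball : ∀ x ∈ Metric.ball z 1, ∀ y : E, ‖y‖ < 1 → x - y ∈ Metric.ball (0 : E) (‖z‖ + 2) := by
      intro x hx y hy
      rw [Metric.mem_ball, dist_eq_norm] at hx
      rw [mem_ball_zero_iff]
      have h1 : x - y = (x - z) + z - y := by abel
      rw [h1]
      have h2 := norm_sub_le ((x - z) + z) y
      have h3 := norm_add_le (x - z) z
      linarith
    have hmp : MeasurePreserving (fun y : E => z - y) volume volume :=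
      Measure.measurePreserving_sub_left volume z
    have hd : ∀ᵐ y : E, DifferentiableAt ℝ H (z - y) := hmp.quasiMeasurePreserving.ae hdiff
    have key := hasFDerivAt_integral_of_dominated_loc_of_lip (μ := (volume : Measure E))
      (F := fun (x y : E) => rho n y • H (x - y))
      (F' := fun y => rho n y • fderiv ℝ H (z - y)) (x₀ := z) (s := Metric.ball z 1)
      (bound := fun y => rho n y * K)
      (Metric.ball_mem_nhds z one_pos)
      (Filter.Eventually.of_forall fun x => (integrable_rho_smul n hc x).aestronglyMeasurable)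
      (integrable_rho_smul n hc z) ?_ ?_ ((rho_integrable n).mul_const _) ?_
    · exact ⟨key.1, key.2.fderiv⟩
    · have : ProperSpace (E →L[ℝ] (E →L[ℝ] ℝ)) := FiniteDimensional.proper ℝ _
      let _ : MeasurableSpace (E →L[ℝ] (E →L[ℝ] ℝ)) := borel _
      have : BorelSpace (E →L[ℝ] (E →L[ℝ] ℝ)) := ⟨rfl⟩
      have hm : Measurable (fderiv ℝ H) := measurable_fderiv ℝ H
      have hm' : Measurable (fun y : E => fderiv ℝ H (z - y)) :=
        hm.comp (measurable_const.sub measurable_id)
      exact (rho_cont n).aestronglyMeasurable.smul hm'.aestronglyMeasurable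
    · refine Filter.Eventually.of_forall fun y => ?_
      rw [lipschitzOnWith_iff_norm_sub_le]
      intro x hx w hw
      show ‖rho n y • H (x - y) - rho n y • H (w - y)‖ ≤ _
      rw [← smul_sub, norm_smul, Real.norm_of_nonneg (rho_nonneg n y)]
      have h0 : ((Real.nnabs (rho n y * K) : ℝ≥0) : ℝ) = rho n y * K := by
        rw [Real.coe_nnabs, abs_of_nonneg (mul_nonneg (rho_nonneg n y) K.coe_nonneg)]
      rw [h0, mul_assoc]
      by_cases hy : rho n y = 0
      · rw [hy, zero_mul, zero_mul]
      · have hy1 := rho_supp n y hy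
        refine mul_le_mul_of_nonneg_left ?_ (rho_nonneg n y)
        have h1 := hK.norm_sub_le (Metric.ball_subset_closedBall (hball x hx y hy1))
          (Metric.ball_subset_closedBall (hball w hw y hy1))
        have h2 : x - y - (w - y) = x - w := by abel
        rwa [h2] at h1
    · filter_upwards [hd] with y hy
      have h1 : HasFDerivAt (fun x : E => H (x - y)) (fderiv ℝ H (z - y)) z := by
        have h2 : HasFDerivAt (fun x : E => x - y) (ContinuousLinearMap.id ℝ E) z :=
          (hasFDerivAt_id z).sub_const y
        have h3 := hy.hasFDerivAt.comp z h2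
        rwa [ContinuousLinearMap.comp_id] at h3
      exact h1.const_smul (rho n y)
  · intro R K hK
    rw [lipschitzOnWith_iff_norm_sub_le]
    intro z hz w hw
    rw [mem_closedBall_zero_iff] at hz hw
    have h1 : mol n H z - mol n H w = ∫ y : E, (rho n y • H (z - y) - rho n y • H (w - y)) := by
      rw [mol, mol, integral_sub (integrable_rho_smul n hc z) (integrable_rho_smul n hc w)]
    rw [h1]
    have h2 : ∫ y : E, rho n y * (K * ‖z - w‖) = K * ‖z - w‖ := by
      rw [integral_mul_const, rho_int, one_mul]
    rw [← h2]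
    refine norm_integral_le_of_norm_le ((rho_integrable n).mul_const _) ?_
    refine Filter.Eventually.of_forall fun y => ?_
    show ‖rho n y • H (z - y) - rho n y • H (w - y)‖ ≤ rho n y * (K * ‖z - w‖)
    rw [← smul_sub, norm_smul, Real.norm_of_nonneg (rho_nonneg n y)]
    by_cases hy : rho n y = 0
    · rw [hy, zero_mul, zero_mul]
    · have hy1 := rho_supp n y hy
      refine mul_le_mul_of_nonneg_left ?_ (rho_nonneg n y)
      have hmem : ∀ x : E, ‖x‖ ≤ R → x - y ∈ Metric.closedBall (0 : E) (R + 1) := by
        intro x hx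
        rw [mem_closedBall_zero_iff]
        have := norm_sub_le x y
        linarith
      have h3 := hK.norm_sub_le (hmem z hz) (hmem w hw)
      have h4 : z - y - (w - y) = z - w := by abel
      rwa [h4] at h3

end Helper85.IW.M_C1a
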